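import Mathlib

/-!
# Project JN (MP_f39c46_an): delta-neighbourhoods of Janowski convex functions

Goal (full answer, all pairs): for `-1 ≤ B < A ≤ 1` the largest `δ` with `N_δ(f) ⊆ St` for all
`f ∈ K[A,B]` is `delta A B`.

Notation in the proofs: `r = ‖z‖`, `J = f/(z f')` (`J(0) = 1`), `J = j₁ + i j₂`, `q = z f''/f'`,
`q = q₁ + i q₂`, `τ(r) = (1 - A r)/(1 - B r)`, `m(r) = k'(-r)` (`mm`), `M(r) = -k(-r) = ∫_0^r m`
(`MM`), `J*(r) = M/(r m)` (`JS`). Facts: `1 + q₁ ≥ τ(r)`, `z J' = 1 - J - q J`,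
`m' = - (A-B)/(1-B r) m`, `1 - τ = r (A-B)/(1-B r)`, `r (J*)' = 1 - τ J*`.
Angular and radial derivatives: for analytic `F`: `∂_θ F = i z F'`, `r ∂_r F = z F'`;
`∂_θ |f'| = -|f'| q₂`, `r ∂_r |f'| = |f'| q₁`.
-/

set_option autoImplicit false

open Complex Metric Set

namespace Pool.Agent.Q81.JN

/-- The class `A`. -/
structure InA (f : ℂ → ℂ) : Prop where
  diff : DifferentiableOn ℂ f (ball 0 1)
  map_zero : f 0 = 0
  deriv_zero : deriv f 0 = 1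

/-- Taylor coefficient at `0`. -/
noncomputable def coef (f : ℂ → ℂ) (n : ℕ) : ℂ := iteratedDeriv n f 0 / (n.factorial : ℂ)

/-- The `δ`-neighbourhood of `f`. -/
def Nbd (δ : ℝ) (f : ℂ → ℂ) : Set (ℂ → ℂ) :=
  {g | InA g ∧ ∀ N : ℕ, ∑ k ∈ Finset.Icc 2 N, (k : ℝ) * ‖coef f k - coef g k‖ ≤ δ}

/-- Normalised starlike functions. -/
structure InSt (g : ℂ → ℂ) : Prop where
  inA : InA g
  inj : InjOn g (ball 0 1)
  star : StarConvex ℝ (0 : ℂ) (g '' ball 0 1)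

/-- Subordination. -/
def Subord (F G : ℂ → ℂ) : Prop :=
  ∃ ω : ℂ → ℂ, DifferentiableOn ℂ ω (ball 0 1) ∧ MapsTo ω (ball 0 1) (ball 0 1) ∧ ω 0 = 0 ∧
    ∀ z ∈ ball (0 : ℂ) 1, F z = G (ω z)

/-- The class `K[A,B]`. -/
structure InK (A B : ℝ) (f : ℂ → ℂ) : Prop where
  inA : InA f
  inj : InjOn f (ball 0 1)
  sub : Subord (fun z => 1 + z * deriv (deriv f) z / deriv f z)
    (fun z => (1 + (A : ℂ) * z) / (1 + (B : ℂ) * z))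

/-- `δ(A,B)`. -/
noncomputable def delta (A B : ℝ) : ℝ :=
  if B = 0 then Real.exp (-A) else (1 - B) ^ ((A - B) / B)

/-- `m(r) = k'(-r)`. -/
noncomputable def mm (A B r : ℝ) : ℝ :=
  if B = 0 then Real.exp (-A * r) else (1 - B * r) ^ ((A - B) / B)

/-- `M(r) = ∫_0^r m`. -/
noncomputable def MM (A B r : ℝ) : ℝ := ∫ s in (0 : ℝ)..r, mm A B s

/-- `τ(r)`. -/
noncomputable def tau (A B r : ℝ) : ℝ := (1 - A * r) / (1 - B * r)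

/-- `J*(r) = M/(r m)`. -/
noncomputable def JS (A B r : ℝ) : ℝ := if r = 0 then 1 else MM A B r / (r * mm A B r)

/-- `J = f/(z f')`. -/
noncomputable def JJ (f : ℂ → ℂ) (z : ℂ) : ℂ := if z = 0 then 1 else f z / (z * deriv f z)

/-- Parameters. -/
structure Par (A B : ℝ) : Prop where
  hB : -1 ≤ B
  hAB : B < A
  hA : A ≤ 1

/-- `f` satisfies the derivative condition of `K[A,B]` (univalence not assumed), `q = z f''/f'`. -/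
structure Pre (A B : ℝ) (f q : ℂ → ℂ) : Prop where
  par : Par A B
  inA : InA f
  ne : ∀ z ∈ ball (0 : ℂ) 1, deriv f z ≠ 0
  qd : DifferentiableOn ℂ q (ball 0 1)
  qeq : ∀ z ∈ ball (0 : ℂ) 1, z * deriv (deriv f) z = q z * deriv f z
  qre : ∀ z ∈ ball (0 : ℂ) 1, tau A B ‖z‖ ≤ 1 + (q z).re

/-- JOB MF (calculus of `m`, `τ`). For `r ∈ [0,1)`: `B r < 1`, `A r < 1`, so `τ > 0`; `τ ≤ 1` since
`A ≥ B`. The derivative of `m` from the two cases (`B = 0`: `exp`; `B ≠ 0`: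
`HasDerivAt.rpow_const`, `1 - B r > 0`). `m` is antitone on `[0,1]` (derivative `≤ 0`), continuous on
`[0,1]` (`1 - B r > 0` for all `r ∈ [0,1]` because `B < 1`). -/
def S_MF : Prop := ∀ A B : ℝ, Par A B →
  (∀ r ∈ Ico (0 : ℝ) 1, 0 < 1 - B * r ∧ 0 < tau A B r ∧ tau A B r ≤ 1 ∧
    1 - tau A B r = r * ((A - B) / (1 - B * r))) ∧
  (∀ r ∈ Icc (0 : ℝ) 1, 0 < mm A B r ∧ delta A B ≤ mm A B r ∧
    HasDerivAt (mm A B) (-((A - B) / (1 - B * r)) * mm A B r) r) ∧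
  mm A B 0 = 1 ∧ mm A B 1 = delta A B ∧ AntitoneOn (mm A B) (Icc 0 1) ∧ 0 < delta A B

/-- JOB JF (calculus of `M`, `J*`). `M' = m` on a neighbourhood of `[0,1)` (`m` is continuous near
every point of `[0,1)`, in fact for all `r < 1/|B|`); `M ≥ r m` since `m` is antitone, so `J* ≥ 1`;
`r (J*)' = 1 - J* + J* (1 - τ) = 1 - τ J*`; continuity of `J*` at `0`: `1 ≤ J*(r) ≤ 1/m(r)`
since `M ≤ r m(0) = r`. -/
def S_JF : Prop := ∀ A B : ℝ, Par A B →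
  MM A B 0 = 0 ∧
  (∀ r ∈ Ico (0 : ℝ) 1, HasDerivAt (MM A B) (mm A B r) r ∧ r * mm A B r ≤ MM A B r ∧
    1 ≤ JS A B r) ∧
  ContinuousOn (JS A B) (Ico 0 1) ∧
  (∀ r ∈ Ioo (0 : ℝ) 1, HasDerivAt (JS A B) ((1 - tau A B r * JS A B r) / r) r)

/-- JOB JC (the function `J`). `J` is continuous on the disc (at `0`: `f(z)/z → f'(0) = 1`), and for
`z ≠ 0`: `z J' = 1 - J - q J` (quotient rule and `z f'' = q f'`). -/
def S_JC : Prop := ∀ (A B : ℝ) (f q : ℂ → ℂ), Pre A B f q →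
  ContinuousOn (JJ f) (ball 0 1) ∧
  ∀ z ∈ ball (0 : ℂ) 1, z ≠ 0 → HasDerivAt (JJ f) ((1 - JJ f z - q z * JJ f z) / z) z

/-- JOB MI: `|f'(z)| ≥ m(|z|)`. Proof: fix `z = r ζ`, `|ζ| = 1`; along the radius
`d/ds log |f'(s ζ)| = Re q(s ζ)/s ≥ -(1-τ(s))/s = -(A-B)/(1-B s) = (log m)'(s)`, and both sides
vanish at `s = 0` (for instance: `s ↦ ‖f'(sζ)‖²/m(s)²` has nonnegative derivative on `(0,1)` and is
continuous on `[0,1)` with value `1` at `0`; the derivative of `‖f'(sζ)‖²` is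
`2 Re (conj(f') ζ f'') = 2 ‖f'‖² Re q/s`). -/
def S_MI : Prop := ∀ (A B : ℝ) (f q : ℂ → ℂ), Pre A B f q →
  ∀ z ∈ ball (0 : ℂ) 1, mm A B ‖z‖ ≤ ‖deriv f z‖

/-- JOB MII: `Re J |f'| ≥ M(r)/r` for `z ≠ 0`. Proof: let `N = Re J |f'|` and fix `ρ < 1`, `ε > 0`.
Let `Φ(z) = N(z) - M(r)/r + ε r²` for `z ≠ 0`, `Φ(0) = 0` (continuous: `M(r)/r → m(0) = 1`,
`N(0) = 1`). Take a minimum point `z*` of `Φ` on `|z| ≤ ρ`; suppose `z* ≠ 0` (otherwise `Φ ≥ 0`; let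
`ε → 0`). The angular derivative `∂_θ N = |f'| (Re(i(1 - J - qJ)) - j₁ q₂) = |f'| j₂ (1 + q₁)`
vanishes at `z*`, and `1 + q₁ ≥ τ > 0`, `f' ≠ 0`, so `j₂ = 0`. The radial derivative
`r ∂_r N = |f'| (Re (1 - J - q J) + j₁ q₁) = |f'| (1 - j₁ + q₂ j₂) = |f'| - N`. Hence
`r ∂_r Φ = |f'| - N - m + M/r + 2 ε r²`, and `Φ(z*) ≤ Φ(0) = 0` gives `M/r - N ≥ ε r²`; with
`|f'| ≥ m` (MI) `r ∂_r Φ ≥ 3 ε r² > 0`, but at a minimum over the closed disc the radial derivative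
is `≤ 0` (compare with the points `s z*`, `s < 1`). Contradiction. -/
def S_MII : Prop := ∀ (A B : ℝ) (f q : ℂ → ℂ), Pre A B f q →
  ∀ z ∈ ball (0 : ℂ) 1, z ≠ 0 → MM A B ‖z‖ / ‖z‖ ≤ (JJ f z).re * ‖deriv f z‖

/-- JOB ALA (real algebra for MIII). With `λ = 1/2`; the function
`F(c) = τ (1/4 + l² + l c) - 1/2 + D l - (l - D/2) c` is linear in `c`, decreasing `D` decreases it
(the coefficient of `D` is `l + c/2 ≥ 0`); with `D₀ = 1 - τ g`, `g = l + 1/2 - η`: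
at `c = 1` it is `(l + 1/2) τ η ≥ 0`, at `c = -1` it is `(l - 1/2)(2 - τ + τ η) ≥ 0`.
So for `D ≥ D₀ + κ`, `κ > 0`: `F(c) ≥ κ (l + c/2) > 0`, since `l ≥ g - 1/2 + η ≥ 1/2 + η`, `η > 0`. -/
def S_ALA : Prop := ∀ τ g l D c κ : ℝ, 0 ≤ τ → τ ≤ 1 → 1 ≤ g → g - 1 / 2 < l → 0 < κ →
  1 - τ * g + κ ≤ D → -1 ≤ c → c ≤ 1 →
  1 / 2 - D * l + (l - D / 2) * c < τ * (1 / 4 + l ^ 2 + l * c)

/-- JOB MIII: `|J - 1/2| ≤ J*(r) - 1/2`. Proof: fix `ρ < 1`, `ε > 0`, and let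
`Ψ(z) = J*(r) - 1/2 - |J - 1/2| + ε r²` on `|z| ≤ ρ`, continuous, `Ψ(0) = 0`. Let `z*` be a minimum
point, suppose `z* ≠ 0` (otherwise `Ψ ≥ 0`, let `ε → 0`). Then `l = |J - 1/2| ≥ J* - 1/2 + ε r²`,
in particular `l > 0` and `|J - 1/2|` is smooth near `z*`. Put `σ = conj(J - 1/2)/l`, `c = Re σ`.
Angular derivative: `Re(σ i z J') = 0`, so `D = σ z J' = σ (1 - J - q J)` is real; it is the radial
derivative `r ∂_r |J - 1/2|`; `r ∂_r Ψ = 1 - τ J* - D + 2 ε r² ≤ 0`. So `D ≥ 1 - τ J* + 2 ε r²`.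
Now `J = 1/2 + l conj σ`, `(1+q) J = 1 - D conj σ`, so
`τ ≤ Re(1+q) = Re((1 - D conj σ)(1/2 + l σ))/|J|² = (1/2 - D l + (l - D/2) c)/(1/4 + l² + l c)`
(`|J|² = 1/4 + l² + l c > 0` as `l > 1/2`). This contradicts ALA with `g = J*`, `κ = 2 ε r²`. -/
def S_MIII : Prop := ∀ (A B : ℝ) (f q : ℂ → ℂ), Pre A B f q →
  ∀ z ∈ ball (0 : ℂ) 1, ‖JJ f z - 1 / 2‖ ≤ JS A B ‖z‖ - 1 / 2

/-- JOB ALB (real algebra). Here `u = Re J`, `w = Im J`, `x = m/|f'|`, `g = J*`. The left side minus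
the right side is the quadratic `(1 - x²) + 2 t w + t² (u² + w² - x²/4)` in `t`; it is nonnegative
because `1 - x² ≥ 0`, `u² + w² ≥ x²/4` (`u ≥ g x ≥ x`) and
`w² ≤ (1 - x²)(u² + w² - x²/4)`, i.e. `x² w² ≤ (1 - x²)(u² - x²/4)`: by the disc hypothesis
`w² ≤ g² - u² - g + u`, and
`(1 - x²)(u² - x²/4) - x² (g² - u² - g + u) = u² - x²/4 + x⁴/4 - x² g² + x² g - x² u` is increasing
in `u ≥ x²/2` and at `u = g x` equals `x² (1 - x)(g - (1 + x)/4) ≥ 0`. -/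
def S_ALB : Prop := ∀ x g u w t : ℝ, 0 < x → x ≤ 1 → 1 ≤ g → g * x ≤ u →
  (u - 1 / 2) ^ 2 + w ^ 2 ≤ (g - 1 / 2) ^ 2 →
  x ^ 2 * (1 + t ^ 2 / 4) ≤ 1 + 2 * t * w + t ^ 2 * (u ^ 2 + w ^ 2)

/-- JOB LB: the lower bound. Proof: `r = |z|`, `x = m(r)/|f'(z)| ∈ (0,1]` (MI), `g = J*(r) ≥ 1`,
`u + i w = J(z)`; MII gives `u ≥ M/(r |f'|) = g x`; MIII the disc condition; ALB with `t`:
`|z f' - i t f|² = |z f'|² |1 - i t J|² = |z f'|² (1 + 2 t w + t² |J|²) ≥ |z f'|² x² (1 + t²/4)`.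
The second claim: `|f| = |z f'| |J| ≥ |z f'| u ≥ |z f'| g x ≥ |z| m`. -/
def S_LB : Prop := ∀ (A B : ℝ) (f q : ℂ → ℂ), Pre A B f q →
  ∀ z ∈ ball (0 : ℂ) 1, z ≠ 0 →
    (∀ t : ℝ, ‖z‖ * mm A B ‖z‖ * Real.sqrt (1 + t ^ 2 / 4) ≤
      ‖z * deriv f z - I * (t : ℂ) * f z‖) ∧
    ‖z‖ * mm A B ‖z‖ ≤ ‖f z‖

/-- JOB PT (perturbation). Power series: `g - f = ∑_{k ≥ 2} c_k z^k` on the unit disc,
`c_k = coef g k - coef f k` (both in the class `A`: coefficients `0, 1` agree), and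
`z (g-f)' - i t (g-f) = ∑ c_k (k - i t) z^k`, `|k - i t| ≤ k √(1 + t²/4)`, `|z|^k ≤ |z|²` for
`k ≥ 2`; `∑ k |c_k| ≤ δ`. -/
def S_PT : Prop := ∀ (δ : ℝ) (f g : ℂ → ℂ), InA f → g ∈ Nbd δ f →
  ∀ z ∈ ball (0 : ℂ) 1,
    (∀ t : ℝ, ‖(z * deriv g z - I * (t : ℂ) * g z) - (z * deriv f z - I * (t : ℂ) * f z)‖ ≤
      δ * ‖z‖ ^ 2 * Real.sqrt (1 + t ^ 2 / 4)) ∧
    ‖g z - f z‖ ≤ δ * ‖z‖ ^ 2

/-- JOB ST (criterion for starlikeness). `G(z) = g(z)/z` (`G(0) = 1`) is analytic and has no zero in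
the disc, so `G = exp h` with `h` analytic, `h(0) = 0` (for instance `exists_log_ball` in
`Pool.Agent.H712R2.Par`, or a primitive of `G'/G`, `DifferentiableOn.isExactOn_ball`).
`P = 1 + z h' = z g'/g` (for `z ≠ 0`) is continuous on the disc, `P(0) = 1`, and `P(z)` is never
purely imaginary, so `Re P > 0` (connectedness of the disc). Now use
`Pool.Agent.Helper968.Schild.starlike_of_pos` (file `Pool/Agent/Helper968/Schild/Starlike.lean`,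
imports only Mathlib). -/
def S_ST : Prop := ∀ g : ℂ → ℂ, InA g →
  (∀ z ∈ ball (0 : ℂ) 1, z ≠ 0 → g z ≠ 0 ∧
    ∀ t : ℝ, z * deriv g z - I * (t : ℂ) * g z ≠ 0) → InSt g

/-- JOB PK: members of `K[A,B]` satisfy `Pre`. `f' ≠ 0` because `f` is injective
(`deriv_ne_zero_of_injOn'` in `Pool.Agent.H712R2.Par`); `q = (A-B) ω/(1 + B ω)`, `|ω(z)| ≤ |z|`
(Schwarz), `1 + q = (1 + A ω)/(1 + B ω)`, and `Re (1 + A w)/(1 + B w) ≥ (1 - A r)/(1 - B r)` for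
`|w| ≤ r < 1` (clear denominators: `Re((1 + A w)(1 + B conj w)) (1 - B r) - (1 - A r)|1 + B w|² =
(A - B)(…) ≥ 0`; or: `(1+Aw)/(1+Bw) = A/B - (A/B - 1)/(1+Bw)` for `B ≠ 0`). -/
def S_PK : Prop := ∀ (A B : ℝ) (f : ℂ → ℂ), Par A B → InK A B f → ∃ q : ℂ → ℂ, Pre A B f q

/-- JOB EK (the extremal function). `k' = exp(((A-B)/B) log(1 + B z))` (`B ≠ 0`) or `exp(A z)`
(`B = 0`) is analytic on the disc (`Re (1 + B z) > 0`), `k` its primitive with `k(0) = 0`;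
`q = (A-B) z/(1 + B z)`; the subordination holds with `ω(z) = z`; `k'(-r) = m(r)`. The bound for
`Re (1+q)` is the inequality of PK with `w = z`. -/
def S_EK : Prop := ∀ A B : ℝ, Par A B → ∃ k q : ℂ → ℂ, Pre A B k q ∧
  Subord (fun z => 1 + z * deriv (deriv k) z / deriv k z)
    (fun z => (1 + (A : ℂ) * z) / (1 + (B : ℂ) * z)) ∧
  ∀ r ∈ Ico (0 : ℝ) 1, deriv k (-(r : ℂ)) = (mm A B r : ℂ)

/-- JOB SH (sharpness). Since `m` is continuous at `1` and `m(1) = δ(A,B) < δ'`, there is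
`r ∈ (0,1)` with `m(r)/r ≤ δ'`. Put `c = m(r)/(2 r)`, `g = k + c z²`. Then
`∑ k |a_k - b_k| = 2 c ≤ δ'` and `g'(-r) = m(r) - 2 c r = 0`, so `g` is not injective on the disc
(`deriv_ne_zero_of_injOn'` in `Pool.Agent.H712R2.Par`). -/
def S_SH : Prop := ∀ (A B δ' : ℝ) (k : ℂ → ℂ), Par A B → InA k →
  (∀ r ∈ Ico (0 : ℝ) 1, deriv k (-(r : ℂ)) = (mm A B r : ℂ)) → delta A B < δ' →
  ∃ g ∈ Nbd δ' k, ¬ InSt g

end Pool.Agent.Q81.JN
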