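import Pool.Agent.Q176.JN.MF
import Pool.Agent.Q176.JN.JF
import Pool.Agent.Q299.JN.JC
import Pool.Agent.Q299.JN.MI
import Pool.Agent.Q299.JN.MII
import Pool.Agent.Q299.JN.ALA
import Pool.Agent.Q162.JN.MIII
import Pool.Agent.Q162.JN.ALB
import Pool.Agent.Q223.JN.LB
import Pool.Agent.Q76.JN.PT
import Pool.Agent.Q110.JN.ST
import Pool.Agent.Q110.JN.SH
import Pool.Agent.Q223.JN.PK
import Pool.Agent.Q265.JN.EK

/-!
# Project JN: assembly
-/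

set_option autoImplicit false

open Complex Metric Set

namespace Pool.Agent.Q81.JN

theorem star_of (hMF : S_MF) (hLB : S_LB) (hPT : S_PT) (hST : S_ST) {A B : ℝ} {f q : ℂ → ℂ}
    (hp : Pre A B f q) {g : ℂ → ℂ} (hg : g ∈ Nbd (delta A B) f) : InSt g := by
  refine hST g hg.1 fun z hz hz0 => ?_
  obtain ⟨-, h2, -, -, -, hd⟩ := hMF A B hp.par
  obtain ⟨l1, l2⟩ := hLB A B f q hp z hz hz0
  obtain ⟨p1, p2⟩ := hPT (delta A B) f g hp.inA hg z hz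
  have hz1 : ‖z‖ < 1 := mem_ball_zero_iff.1 hz
  have hz2 : 0 < ‖z‖ := norm_pos_iff.2 hz0
  obtain ⟨m1, m2, -⟩ := h2 ‖z‖ ⟨hz2.le, hz1.le⟩
  have key : delta A B * ‖z‖ ^ 2 < ‖z‖ * mm A B ‖z‖ := by
    have a1 : delta A B * ‖z‖ ^ 2 < delta A B * ‖z‖ := by
      have : ‖z‖ ^ 2 < ‖z‖ := by nlinarith only [hz1, hz2]
      exact mul_lt_mul_of_pos_left this hd
    have a2 : delta A B * ‖z‖ ≤ ‖z‖ * mm A B ‖z‖ := by
      rw [mul_comm]; exact mul_le_mul_of_nonneg_left m2 hz2.le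
    exact lt_of_lt_of_le a1 a2
  refine ⟨fun h0 => ?_, fun t h0 => ?_⟩
  · rw [h0, zero_sub, norm_neg] at p2
    linarith
  · have q1 := p1 t
    rw [h0, zero_sub, norm_neg] at q1
    have q2 := l1 t
    have hs : 0 < Real.sqrt (1 + t ^ 2 / 4) := Real.sqrt_pos.2 (by positivity)
    have := mul_lt_mul_of_pos_right key hs
    linarith

theorem main_of (hMF : S_MF) (hLB : S_LB) (hPT : S_PT) (hST : S_ST) (hPK : S_PK) (hEK : S_EK)
    (hSH : S_SH) (A B : ℝ) (hB : -1 ≤ B) (hAB : B < A) (hA : A ≤ 1) :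
    IsGreatest {δ : ℝ | 0 ≤ δ ∧ ∀ f, InK A B f → ∀ g ∈ Nbd δ f, InSt g} (delta A B) := by
  have hpar : Par A B := ⟨hB, hAB, hA⟩
  obtain ⟨-, -, -, -, -, hd⟩ := hMF A B hpar
  constructor
  · refine ⟨hd.le, fun f hf g hg => ?_⟩
    obtain ⟨q, hq⟩ := hPK A B f hpar hf
    exact star_of hMF hLB hPT hST hq hg
  · rintro δ' ⟨hδ0, hδ⟩
    by_contra hlt
    push Not at hlt
    obtain ⟨k, q, hk, hs, hm⟩ := hEK A B hpar
    have hkk : k ∈ Nbd (delta A B) k := by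
      refine ⟨hk.inA, fun N => ?_⟩
      simp only [sub_self, norm_zero, mul_zero, Finset.sum_const_zero]
      exact hd.le
    have hkst : InSt k := star_of hMF hLB hPT hST hk hkk
    obtain ⟨g, hg, hng⟩ := hSH A B δ' k hpar hk.inA hm hlt
    exact hng (hδ k ⟨hk.inA, hkst.inj, hs⟩ g hg)

theorem main (A B : ℝ) (hB : -1 ≤ B) (hAB : B < A) (hA : A ≤ 1) :
    IsGreatest {δ : ℝ | 0 ≤ δ ∧ ∀ f, InK A B f → ∀ g ∈ Nbd δ f, InSt g} (delta A B) := by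
  have hMF : S_MF := Pool.Agent.Q176.JN.mf
  have hJF : S_JF := Pool.Agent.Q176.JN.F.jf hMF
  have hJC : S_JC := Pool.Agent.Q299.JN.jc
  have hMI : S_MI := Pool.Agent.Q299.JN.mi hMF
  have hMII : S_MII := Pool.Agent.Q299.JN.mii hMF hJF hJC hMI
  have hMIII : S_MIII := Pool.Agent.Q162.JN.miii hMF hJF hJC Pool.Agent.Q299.JN.ala
  have hLB : S_LB := Pool.Agent.Q223.JN.lb hMF hJF hMI hMII hMIII Pool.Agent.Q162.JN.alb
  exact main_of hMF hLB Pool.Agent.Q76.JN.pt Pool.Agent.Q110.JN.st Pool.Agent.Q223.JN.pk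
    Pool.Agent.Q265.JN.ek Pool.Agent.Q110.JN.sh A B hB hAB hA

end Pool.Agent.Q81.JN
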